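import Pool.Agent.Helper21.DY.H

/-!
# Canonical generators of the plane sections, ties allowed (MP_d13a5e_al, block C)
-/

set_option autoImplicit false

namespace DY

open Set

variable {E : Type*} [AddCommGroup E] [Module ℝ E]
variable {Ψ : Set E} {B : E →ₗ[ℝ] E →ₗ[ℝ] ℝ} {ρ : E →ₗ[ℝ] ℝ}

/-- roots which are not opposite are independent -/
theorem Sys.indepC (hS : Sys Ψ B) {u v : E} (hu : u ∈ Ψ) (hv : v ∈ Ψ) (h1 : u ≠ v) (h2 : u ≠ -v) :
    ∀ a b : ℝ, a • u + b • v = 0 → a = 0 ∧ b = 0 := by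
  intro a b hab
  have hv0 : v ≠ 0 := by
    rintro rfl
    have := hS.one _ hv
    simp at this
  have ha : a = 0 := by
    by_contra ha
    have h3 : u = (-(b / a)) • v := by
      have h4 : a • u = (-b) • v := by
        rw [neg_smul, eq_neg_iff_add_eq_zero]
        exact hab
      have h5 : u = a⁻¹ • ((-b) • v) := by
        rw [← h4, smul_smul, inv_mul_cancel₀ ha, one_smul]
      rw [h5, smul_smul]
      congr 1
      ring
    set c := -(b / a) with hc
    have h4 := hS.one u hu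
    rw [h3, map_smul, map_smul, LinearMap.smul_apply, hS.one v hv, smul_eq_mul, smul_eq_mul,
      mul_one] at h4
    have h5 : (c - 1) * (c + 1) = 0 := by linarith
    rcases mul_eq_zero.1 h5 with h6 | h6
    · apply h1
      rw [h3, show c = 1 by linarith, one_smul]
    · apply h2
      rw [h3, show c = -1 by linarith, neg_smul, one_smul]
  refine ⟨ha, ?_⟩
  rw [ha, zero_smul, zero_add] at hab
  rcases smul_eq_zero.mp hab with h3 | h3
  · exact h3
  · exact absurd h3 hv0

theorem Sys.span_eqC (hS : Sys Ψ B) {u v x y : E} (hx : x ∈ Ψ) (hy : y ∈ Ψ) (h1 : x ≠ y)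
    (h2 : x ≠ -y) (hx' : x ∈ Submodule.span ℝ {u, v}) (hy' : y ∈ Submodule.span ℝ {u, v}) :
    Submodule.span ℝ {x, y} = Submodule.span ℝ {u, v} := by
  classical
  have hfd : FiniteDimensional ℝ (Submodule.span ℝ ({u, v} : Set E)) :=
    FiniteDimensional.span_of_finite ℝ (by simp)
  refine Submodule.eq_of_le_of_finrank_le ?_ ?_
  · rw [Submodule.span_le]
    rintro z (rfl | rfl)
    · exact hx'
    · exact hy'
  · have hli : LinearIndependent ℝ ![x, y] := by
      rw [LinearIndependent.pair_iff]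
      exact hS.indepC hx hy h1 h2
    have h3 := finrank_span_eq_card hli
    have h4 : Set.range ![x, y] = {x, y} := by
      simp [Matrix.range_cons, Matrix.range_empty, Set.pair_comm]
    rw [h4, Fintype.card_fin] at h3
    rw [h3]
    have h5 : ({u, v} : Set E) = (({u, v} : Finset E) : Set E) := by simp
    rw [h5]
    exact (finrank_span_finset_le_card _).trans Finset.card_le_two

/-- the root `r_u v` lies in the plane -/
theorem rf_mem_spanC (B : E →ₗ[ℝ] E →ₗ[ℝ] ℝ) {P : Submodule ℝ E} {u v : E} (hu : u ∈ P) (hv : v ∈ P) :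
    rf B u v ∈ P := P.sub_mem hv (P.smul_mem _ hu)

/-- minima on sets of roots with positive values -/
theorem Cn.exists_min (hC : Cn Ψ B ρ) {S : Set E} (hS : ∀ w ∈ S, w ∈ Ψ ∧ 0 < ρ w) (hne : S.Nonempty) :
    ∃ x ∈ S, ∀ z ∈ S, ρ x ≤ ρ z := by
  obtain ⟨z0, hz0⟩ := hne
  have hf : {w | w ∈ S ∧ ρ w ≤ ρ z0}.Finite :=
    (hC.fin (ρ z0)).subset fun w hw => ⟨(hS w hw.1).1, by rw [abs_of_pos (hS w hw.1).2]; exact hw.2⟩
  obtain ⟨x, hx, hxm⟩ := hf.exists_minimalFor ρ _ ⟨z0, hz0, le_rfl⟩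
  refine ⟨x, hx.1, fun z hz => ?_⟩
  by_contra hh
  rw [not_le] at hh
  exact absurd (hxm ⟨hz, hh.le.trans hx.2⟩ hh.le) (not_le.2 hh)

/-- **(C)** canonical generators of a plane section on which the centre does not vanish; ties are allowed -/
theorem Sys.exists_canon (hS : Sys Ψ B) (hC : Cn Ψ B ρ) {u v : E} (hu : u ∈ Ψ) (hv : v ∈ Ψ)
    (huv : u ≠ v) (huv' : u ≠ -v) (hnz : ∀ w ∈ Ψ, w ∈ Submodule.span ℝ {u, v} → ρ w ≠ 0) :
    ∃ x ∈ Ψ, ∃ y ∈ Ψ, x ≠ y ∧ x ≠ -y ∧ x ∈ Submodule.span ℝ {u, v} ∧ y ∈ Submodule.span ℝ {u, v} ∧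
      0 < ρ x ∧ ρ x ≤ ρ y ∧ B x y ≤ 0 ∧
      (∀ w ∈ Ψ, w ∈ Submodule.span ℝ {u, v} → 0 < ρ w →
        ∃ a b : ℝ, w = a • x + b • y ∧ (a = 0 ∧ b = 1 ∨ a = 1 ∧ b = 0 ∨ 1 ≤ a ∧ 1 ≤ b)) ∧
      Canon Ψ x y := by
  set P := Submodule.span ℝ ({u, v} : Set E) with hP
  have huP : u ∈ P := Submodule.subset_span (by simp)
  have hvP : v ∈ P := Submodule.subset_span (by simp)
  set Φ : Set E := {w | w ∈ Ψ ∧ w ∈ P ∧ 0 < ρ w} with hΦ
  have hmin : ∀ S : Set E, S ⊆ Φ → S.Nonempty → ∃ x ∈ S, ∀ z ∈ S, ρ x ≤ ρ z := by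
    intro S hSΦ hne
    exact hC.exists_min (fun w hw => ⟨(hSΦ hw).1, (hSΦ hw).2.2⟩) hne
  have hrefl : ∀ s ∈ Φ, ∀ w ∈ Φ, rf B s w ∈ Φ ∨ -rf B s w ∈ Φ := by
    intro s hs w hw
    have h1 := hS.refl s hs.1 w hw.1
    have h2 := rf_mem_spanC B hs.2.1 hw.2.1
    rcases lt_trichotomy (ρ (rf B s w)) 0 with h3 | h3 | h3
    · exact Or.inr ⟨hS.neg _ h1, P.neg_mem h2, by rw [map_neg]; linarith⟩
    · exact absurd h3 (hnz _ h1 h2)
    · exact Or.inl ⟨h1, h2, h3⟩
  have hsign : ∀ w ∈ Ψ, w ∈ P → w ∈ Φ ∨ -w ∈ Φ := by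
    intro w h1 h2
    rcases lt_trichotomy (ρ w) 0 with h3 | h3 | h3
    · exact Or.inr ⟨hS.neg _ h1, P.neg_mem h2, by rw [map_neg]; linarith⟩
    · exact absurd h3 (hnz _ h1 h2)
    · exact Or.inl ⟨h1, h2, h3⟩
  have hΦne : Φ.Nonempty := by
    rcases hsign u hu huP with h1 | h1
    · exact ⟨_, h1⟩
    · exact ⟨_, h1⟩
  obtain ⟨x, hx, hxm⟩ := hmin Φ subset_rfl hΦne
  have hne : (Φ \ {x}).Nonempty := by
    have key : ∃ w1 ∈ Φ, ∃ w2 ∈ Φ, w1 ≠ w2 := by
      rcases hsign u hu huP with h1 | h1 <;> rcases hsign v hv hvP with h2 | h2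
      · exact ⟨_, h1, _, h2, huv⟩
      · exact ⟨_, h1, _, h2, huv'⟩
      · exact ⟨_, h1, _, h2, fun h3 => huv' (by rw [← h3, neg_neg])⟩
      · exact ⟨_, h1, _, h2, fun h3 => huv (neg_inj.1 h3)⟩
    obtain ⟨w1, h1, w2, h2, h3⟩ := key
    by_cases h4 : w1 = x
    · exact ⟨w2, h2, fun h5 => h3 (h4.trans (by simpa using h5.symm))⟩
    · exact ⟨w1, h1, h4⟩
  obtain ⟨y, hy, hym⟩ := hmin (Φ \ {x}) sdiff_subset hne
  have hyx : y ≠ x := hy.2
  have hxy' : x ≠ -y := by
    intro h1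
    have h2 := hx.2.2
    rw [h1, map_neg] at h2
    linarith [hy.1.2.2]
  have hρxy : ρ x ≤ ρ y := hxm y hy.1
  have hρx : 0 < ρ x := hx.2.2
  have hρy : 0 < ρ y := hy.1.2.2
  have hind := hS.indepC hx.1 hy.1.1 hyx.symm hxy'
  set β := B x y with hβ
  have hβ' : B y x = β := hS.symm y x
  have hxx : B x x = 1 := hS.one x hx.1
  have hyy : B y y = 1 := hS.one y hy.1.1
  have hbelow : ∀ w ∈ Φ, ρ w < ρ y → w = x := by
    intro w hw hlt
    by_contra hwx
    exact absurd (hym w ⟨hw, hwx⟩) (not_le.2 hlt)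
  have hβ0 : β ≤ 0 := by
    by_contra hβp
    rw [not_le] at hβp
    have e1 : rf B x y = (-(2 * β)) • x + (1 : ℝ) • y := by
      unfold rf
      rw [← hβ]
      module
    rcases hrefl x hx y hy.1 with h1 | h1
    · have h2 : ρ (rf B x y) < ρ y := by
        rw [e1, map_add, map_smul, map_smul, smul_eq_mul, smul_eq_mul]
        have := mul_pos hβp hρx
        linarith
      have h3 := hbelow _ h1 h2
      rw [e1] at h3
      have h4 := hind (-(2 * β) - 1) 1 (by
        rw [sub_smul, one_smul (M := ℝ) x]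
        rw [← sub_eq_zero] at h3
        rw [← h3]
        abel)
      exact one_ne_zero h4.2
    · have h2 := hxm _ h1
      have h3 : ρ (-rf B x y) = 2 * β * ρ x - ρ y := by
        rw [e1, map_neg, map_add, map_smul, map_smul, smul_eq_mul, smul_eq_mul]
        ring
      rw [h3] at h2
      have hβ1 : 1 ≤ β := by
        by_contra hh
        rw [not_le] at hh
        have := mul_lt_mul_of_pos_right hh hρx
        linarith
      exact Cn.nest hS hC hx.1 hy.1.1 hyx.symm hβ1 hρx hρxy h2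
  have hnorm : ∀ a b : ℝ, B (a • x + b • y) (a • x + b • y) = a ^ 2 + 2 * a * b * β + b ^ 2 := by
    intro a b
    simp only [map_add, map_smul, LinearMap.add_apply, LinearMap.smul_apply, smul_eq_mul,
      hxx, hyy, ← hβ, hβ']
    ring
  have hnn : ∀ a b : ℝ, a • x + b • y ∈ Φ → 0 ≤ a ∧ 0 ≤ b := by
    intro a b hw
    have h1 := hS.one _ hw.1
    rw [hnorm] at h1
    have h2 := hw.2.2
    rw [map_add, map_smul, map_smul, smul_eq_mul, smul_eq_mul] at h2
    constructor
    · by_contra ha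
      rw [not_le] at ha
      have hb : 0 < b := by
        by_contra hb
        have := mul_nonpos_of_nonpos_of_nonneg (not_lt.mp hb) hρy.le
        have := mul_neg_of_neg_of_pos ha hρx
        linarith
      have h3 : 0 ≤ 2 * a * b * β := by
        have : 0 ≤ (a * b) * β := mul_nonneg_of_nonpos_of_nonpos
          (mul_nonpos_of_nonpos_of_nonneg ha.le hb.le) hβ0
        linarith
      have hb1 : b < 1 := by
        have : 0 < a * a := mul_pos_of_neg_of_neg ha ha
        nlinarith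
      have h4 : ρ (a • x + b • y) < ρ y := by
        rw [map_add, map_smul, map_smul, smul_eq_mul, smul_eq_mul]
        have := mul_neg_of_neg_of_pos ha hρx
        have := mul_lt_mul_of_pos_right hb1 hρy
        linarith
      have h5 := hbelow _ hw h4
      have h6 := (hind (a - 1) b (by
        rw [sub_smul, one_smul]
        rw [← sub_eq_zero] at h5
        rw [← h5]
        abel)).2
      exact hb.ne' h6
    · by_contra hb
      rw [not_le] at hb
      have ha : 0 < a := by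
        by_contra ha
        have := mul_nonpos_of_nonpos_of_nonneg (not_lt.mp ha) hρx.le
        have := mul_neg_of_neg_of_pos hb hρy
        linarith
      have h3 : 0 ≤ 2 * a * b * β := by
        have : 0 ≤ (a * b) * β := mul_nonneg_of_nonpos_of_nonpos
          (mul_nonpos_of_nonneg_of_nonpos ha.le hb.le) hβ0
        linarith
      have ha1 : a < 1 := by
        have : 0 < b * b := mul_pos_of_neg_of_neg hb hb
        nlinarith
      have h4 := hxm _ hw
      rw [map_add, map_smul, map_smul, smul_eq_mul, smul_eq_mul] at h4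
      have := mul_neg_of_neg_of_pos hb hρy
      have := mul_lt_mul_of_pos_right ha1 hρx
      linarith
  have hone : ∀ a : ℝ, 0 ≤ a → a ^ 2 = 1 → a = 1 := fun a ha h1 => by nlinarith
  have hge : ∀ a b : ℝ, a • x + b • y ∈ Φ →
      (a = 0 ∧ b = 1 ∨ a = 1 ∧ b = 0 ∨ 1 ≤ a ∧ 1 ≤ b) := by
    by_contra hcon
    push Not at hcon
    set S : Set E := {w | w ∈ Φ ∧ ∃ a b : ℝ, w = a • x + b • y ∧
      ¬ (a = 0 ∧ b = 1 ∨ a = 1 ∧ b = 0 ∨ 1 ≤ a ∧ 1 ≤ b)} with hSdef
    have hSne : S.Nonempty := by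
      obtain ⟨a, b, hw, h1, h2, h3⟩ := hcon
      refine ⟨_, hw, a, b, rfl, ?_⟩
      rintro (⟨h4, h5⟩ | ⟨h4, h5⟩ | ⟨h4, h5⟩)
      · exact h1 h4 h5
      · exact h2 h4 h5
      · exact absurd (h3 h4) (not_lt.mpr h5)
    obtain ⟨w, hwS, hwm⟩ := hmin S (fun w hw => hw.1) hSne
    obtain ⟨hw, a, b, rfl, hbad⟩ := hwS
    obtain ⟨ha, hb⟩ := hnn a b hw
    have h1 := hS.one _ hw.1
    rw [hnorm] at h1
    have ha0 : 0 < a := by
      rcases ha.eq_or_lt with h2 | h2
      · exfalso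
        rw [← h2] at h1
        exact hbad (Or.inl ⟨h2.symm, hone b hb (by linarith)⟩)
      · exact h2
    have hb0 : 0 < b := by
      rcases hb.eq_or_lt with h2 | h2
      · exfalso
        rw [← h2] at h1
        exact hbad (Or.inr (Or.inl ⟨hone a ha (by linarith), h2.symm⟩))
      · exact h2
    have ex : rf B x (a • x + b • y) = (-a - 2 * b * β) • x + b • y := by
      unfold rf
      rw [map_add, map_smul, map_smul, hxx, ← hβ, smul_eq_mul, smul_eq_mul]
      module
    have ey : rf B y (a • x + b • y) = a • x + (-b - 2 * a * β) • y := by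
      unfold rf
      rw [map_add, map_smul, map_smul, hyy, hβ', smul_eq_mul, smul_eq_mul]
      module
    have hxr : rf B x (a • x + b • y) ∈ Φ := by
      rcases hrefl x hx _ hw with h2 | h2
      · exact h2
      · exfalso
        have e : -rf B x (a • x + b • y) = (a + 2 * b * β) • x + (-b) • y := by
          rw [ex]
          module
        rw [e] at h2
        have := (hnn _ _ h2).2
        linarith
    have hyr : rf B y (a • x + b • y) ∈ Φ := by
      rcases hrefl y hy.1 _ hw with h2 | h2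
      · exact h2
      · exfalso
        have e : -rf B y (a • x + b • y) = (-a) • x + (b + 2 * a * β) • y := by
          rw [ey]
          module
        rw [e] at h2
        have := (hnn _ _ h2).1
        linarith
    have hsm : ∀ a' b' : ℝ, a' • x + b' • y ∈ Φ → ρ (a' • x + b' • y) < ρ (a • x + b • y) →
        (a' = 0 ∧ b' = 1 ∨ a' = 1 ∧ b' = 0 ∨ 1 ≤ a' ∧ 1 ≤ b') := by
      intro a' b' hw' hlt
      by_contra hh
      have h2 : a' • x + b' • y ∈ S := ⟨hw', a', b', rfl, hh⟩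
      exact absurd (hwm _ h2) (not_le.2 hlt)
    have hρab : ∀ a b : ℝ, ρ (a • x + b • y) = a * ρ x + b * ρ y := by
      intro a b
      rw [map_add, map_smul, map_smul, smul_eq_mul, smul_eq_mul]
    by_cases hc : 0 < a + b * β
    · have h2 := hsm _ b (ex ▸ hxr) (by
        rw [hρab, hρab]
        have := mul_pos hc hρx
        nlinarith)
      rcases h2 with ⟨h2, h3⟩ | ⟨h2, h3⟩ | ⟨h2, h3⟩
      · have h4 := hnn _ _ (ey ▸ hyr)
        have h5 : a = -(2 * β) := by
          rw [h3] at h2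
          linarith
        have h6 : 1 ≤ a := by
          have : 0 ≤ 4 * β ^ 2 - 1 := by
            have := h4.2
            rw [h3, h5] at this
            linarith
          nlinarith
        exact hbad (Or.inr (Or.inr ⟨h6, h3.ge⟩))
      · exact hb0.ne' h3
      · exact hbad (Or.inr (Or.inr ⟨by linarith, h3⟩))
    · have hc' : 0 < b + a * β := by
        have h7 : a * (a + b * β) + b * (b + a * β) = 1 := by linarith
        have h8 : a * (a + b * β) ≤ 0 := mul_nonpos_of_nonneg_of_nonpos ha0.le (not_lt.mp hc)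
        have h9 : 0 < b * (b + a * β) := by linarith
        exact pos_of_mul_pos_right h9 hb0.le
      have h2 := hsm a _ (ey ▸ hyr) (by
        rw [hρab, hρab]
        have := mul_pos hc' hρy
        nlinarith)
      rcases h2 with ⟨h2, h3⟩ | ⟨h2, h3⟩ | ⟨h2, h3⟩
      · exact ha0.ne' h2
      · have h4 := hnn _ _ (ex ▸ hxr)
        have h5 : b = -(2 * β) := by
          rw [h2] at h3
          linarith
        have h6 : 1 ≤ b := by
          have : 0 ≤ 4 * β ^ 2 - 1 := by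
            have := h4.1
            rw [h2, h5] at this
            linarith
          nlinarith
        exact hbad (Or.inr (Or.inr ⟨h2.ge, h6⟩))
      · exact hbad (Or.inr (Or.inr ⟨h2, by linarith⟩))
  have hPxy : P = Submodule.span ℝ {x, y} :=
    (hS.span_eqC hx.1 hy.1.1 hyx.symm hxy' hx.2.1 hy.1.2.1).symm
  refine ⟨x, hx.1, y, hy.1.1, hyx.symm, hxy', hx.2.1, hy.1.2.1, hρx, hρxy, hβ0,
    fun w hw hwP hw0 => ?_, fun w hw a b hab => ?_⟩
  · have h1 := hwP
    rw [hPxy, Submodule.mem_span_pair] at h1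
    obtain ⟨a, b, rfl⟩ := h1
    exact ⟨a, b, rfl, hge a b ⟨hw, hwP, hw0⟩⟩
  · have hwP : w ∈ P := by
      rw [hab]
      exact P.add_mem (P.smul_mem _ hx.2.1) (P.smul_mem _ hy.1.2.1)
    rcases hsign w hw hwP with h1 | h1
    · rw [hab] at h1
      exact Or.inl (hge a b h1)
    · have h2 : -w = (-a) • x + (-b) • y := by rw [hab]; module
      rw [h2] at h1
      exact Or.inr (hge (-a) (-b) h1)

/-- **(C2)** canonical generators of a plane section when the centre lies on one of its mirrors -/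
theorem Sys.exists_canon_wall (hS : Sys Ψ B) (hC : Cn Ψ B ρ) {x u : E} (hx : x ∈ Ψ) (hu : u ∈ Ψ)
    (hxu : u ≠ x) (hxu' : u ≠ -x) (hx0 : ρ x = 0)
    (hnz : ∀ w ∈ Ψ, w ∈ Submodule.span ℝ {x, u} → ρ w = 0 → w = x ∨ w = -x) :
    ∃ κ ∈ Ψ, κ ∈ Submodule.span ℝ {x, u} ∧ 0 < ρ κ ∧ B x κ ≤ 0 ∧
      (∀ w ∈ Ψ, w ∈ Submodule.span ℝ {x, u} → 0 < ρ w → ρ κ ≤ ρ w) ∧ Canon Ψ x κ := by
  set P := Submodule.span ℝ ({x, u} : Set E) with hP
  have hxP : x ∈ P := Submodule.subset_span (by simp)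
  have huP : u ∈ P := Submodule.subset_span (by simp)
  have hxx : B x x = 1 := hS.one x hx
  have hu0 : ρ u ≠ 0 := by
    intro h1
    rcases hnz u hu huP h1 with h2 | h2
    · exact hxu h2
    · exact hxu' h2
  have hne : ({w | w ∈ Ψ ∧ w ∈ P ∧ 0 < ρ w} : Set E).Nonempty := by
    rcases lt_or_gt_of_ne hu0 with h1 | h1
    · exact ⟨-u, hS.neg u hu, P.neg_mem huP, by rw [map_neg]; linarith⟩
    · exact ⟨u, hu, huP, h1⟩
  obtain ⟨κ0, ⟨k1, k2, k3⟩, k4⟩ := hC.exists_min (fun w hw => ⟨hw.1, hw.2.2⟩) hne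
  obtain ⟨κ, l1, l2, l3, l4, l5⟩ : ∃ κ ∈ Ψ, κ ∈ P ∧ 0 < ρ κ ∧ B x κ ≤ 0 ∧
      ∀ w ∈ Ψ, w ∈ P → 0 < ρ w → ρ κ ≤ ρ w := by
    rcases le_or_gt (B x κ0) 0 with h1 | h1
    · exact ⟨κ0, k1, k2, k3, h1, fun w hw hwP hw0 => k4 w ⟨hw, hwP, hw0⟩⟩
    · have e1 : ρ (rf B x κ0) = ρ κ0 := by
        unfold rf
        rw [map_sub, map_smul, hx0, smul_zero, sub_zero]
      refine ⟨rf B x κ0, hS.refl x hx κ0 k1, rf_mem_spanC B hxP k2, by rw [e1]; exact k3, ?_,
        fun w hw hwP hw0 => by rw [e1]; exact k4 w ⟨hw, hwP, hw0⟩⟩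
      unfold rf
      rw [map_sub, map_smul, hxx, smul_eq_mul]
      linarith
  refine ⟨κ, l1, l2, l3, l4, l5, ?_⟩
  have hκκ : B κ κ = 1 := hS.one κ l1
  set b0 := -(B x κ) with hb0
  have hb : 0 ≤ b0 := by rw [hb0]; linarith
  have hBxκ : B x κ = -b0 := by rw [hb0]; ring
  have hBκx : B κ x = -b0 := by rw [hS.symm, hBxκ]
  have hρab : ∀ a b : ℝ, ρ (a • x + b • κ) = b * ρ κ := by
    intro a b
    rw [map_add, map_smul, map_smul, hx0, smul_eq_mul, smul_eq_mul]
    ring
  have hnorm : ∀ a b : ℝ, B (a • x + b • κ) (a • x + b • κ) = a ^ 2 - 2 * a * b * b0 + b ^ 2 := by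
    intro a b
    simp only [map_add, map_smul, LinearMap.add_apply, LinearMap.smul_apply, smul_eq_mul,
      hxx, hκκ, hBxκ, hBκx]
    ring
  have hPx : ∀ a b : ℝ, a • x + b • κ ∈ P := fun a b => P.add_mem (P.smul_mem _ hxP) (P.smul_mem _ l2)
  -- positive roots
  have hb1 : ∀ a b : ℝ, a • x + b • κ ∈ Ψ → 0 < b → 1 ≤ b := by
    intro a b hw h0
    have h1 := l5 _ hw (hPx a b) (by rw [hρab]; exact mul_pos h0 l3)
    rw [hρab] at h1
    by_contra h2
    rw [not_le] at h2
    have := mul_lt_mul_of_pos_right h2 l3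
    linarith
  have ha0 : ∀ a b : ℝ, a • x + b • κ ∈ Ψ → 0 < b → 0 ≤ a := by
    intro a b hw h0
    by_contra h2
    rw [not_le] at h2
    have h3 := hb1 a b hw h0
    have h1 := hS.one _ hw
    rw [hnorm] at h1
    have h4 : 0 ≤ (-a) * b * b0 := mul_nonneg (mul_nonneg (by linarith) h0.le) hb
    nlinarith
  have key : ∀ a b : ℝ, a • x + b • κ ∈ Ψ → 0 < b → (a = 0 ∧ b = 1 ∨ a = 1 ∧ b = 0 ∨ 1 ≤ a ∧ 1 ≤ b) := by
    intro a b hw h0
    have h3 := hb1 a b hw h0
    have h4 := ha0 a b hw h0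
    have h1 := hS.one _ hw
    rw [hnorm] at h1
    rcases h4.eq_or_lt with h5 | h5
    · left
      refine ⟨h5.symm, ?_⟩
      rw [← h5] at h1
      nlinarith
    · right
      right
      refine ⟨?_, h3⟩
      -- reflect in κ
      have e1 : rf B κ (a • x + b • κ) = a • x + (2 * a * b0 - b) • κ := by
        unfold rf
        rw [map_add, map_smul, map_smul, hκκ, hBκx, smul_eq_mul, smul_eq_mul]
        module
      have h6 := hS.refl κ l1 _ hw
      rw [e1] at h6
      rcases lt_trichotomy (2 * a * b0 - b) 0 with h7 | h7 | h7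
      · exfalso
        have h8 := hS.neg _ h6
        have e2 : -(a • x + (2 * a * b0 - b) • κ) = (-a) • x + (-(2 * a * b0 - b)) • κ := by module
        rw [e2] at h8
        have := ha0 _ _ h8 (by linarith)
        linarith
      · rw [h7] at h6
        have h8 := hS.one _ h6
        rw [hnorm] at h8
        nlinarith
      · have h8 := hb1 _ _ h6 h7
        have h9 : 2 * a * b * b0 = a ^ 2 + b ^ 2 - 1 := by linarith
        have h10 : b * (b + 1) ≤ b * (2 * a * b0) := mul_le_mul_of_nonneg_left (by linarith) h0.le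
        nlinarith
  intro w hw a b hab
  rcases lt_trichotomy b 0 with h1 | h1 | h1
  · right
    have h2 := hS.neg w hw
    have e2 : -w = (-a) • x + (-b) • κ := by rw [hab]; module
    rw [e2] at h2
    exact key _ _ h2 (by linarith)
  · have h2 := hS.one w hw
    rw [hab, hnorm, h1] at h2
    have h3 : (a - 1) * (a + 1) = 0 := by linarith
    rcases mul_eq_zero.1 h3 with h4 | h4
    · exact Or.inl (Or.inr (Or.inl ⟨by linarith, h1⟩))
    · exact Or.inr (Or.inr (Or.inl ⟨by linarith, by rw [h1]; ring⟩))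
  · left
    rw [hab] at hw
    exact key _ _ hw h1

end DY
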