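import Pool.Agent.Helper70.DY.F1

/-!
# Chambers of triangle systems (MP_d13a5e_al, block W)

For a triangle system with an admissible centre `ρ` there is a simple system on which `ρ ≥ 0`; if `x` is a
root with `ρ x = 0` one can take `x` as one of the simple roots; and then `ρ` can be changed a little such
that `x` is the only mirror through the centre, without changing a given ball.
-/

set_option autoImplicit false

namespace DY

open Set

variable {E : Type*} [AddCommGroup E] [Module ℝ E]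

/-! ### reflections -/

theorem rfW_add (B : E →ₗ[ℝ] E →ₗ[ℝ] ℝ) (u v w : E) : rf B u (v + w) = rf B u v + rf B u w := by
  unfold rf
  rw [map_add]
  module

theorem rfW_smul (B : E →ₗ[ℝ] E →ₗ[ℝ] ℝ) (u v : E) (c : ℝ) : rf B u (c • v) = c • rf B u v := by
  unfold rf
  rw [map_smul, smul_eq_mul]
  module

theorem rfW_neg (B : E →ₗ[ℝ] E →ₗ[ℝ] ℝ) (u v : E) : rf B u (-v) = -rf B u v := by
  unfold rf
  rw [map_neg]
  module

theorem rfW_self {B : E →ₗ[ℝ] E →ₗ[ℝ] ℝ} {u : E} (h1 : B u u = 1) : rf B u u = -u := by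
  unfold rf
  rw [h1]
  module

theorem rfW_rf {B : E →ₗ[ℝ] E →ₗ[ℝ] ℝ} {u : E} (h1 : B u u = 1) (v : E) : rf B u (rf B u v) = v := by
  unfold rf
  rw [map_sub, map_smul, h1, smul_eq_mul]
  module

theorem B_rfW {B : E →ₗ[ℝ] E →ₗ[ℝ] ℝ} (hs : ∀ u v, B u v = B v u) {u : E} (h1 : B u u = 1) (v w : E) :
    B (rf B u v) (rf B u w) = B v w := by
  unfold rf
  simp only [map_sub, map_smul, LinearMap.sub_apply, LinearMap.smul_apply, smul_eq_mul, h1, hs v u]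
  ring

theorem rfW_conj {B : E →ₗ[ℝ] E →ₗ[ℝ] ℝ} (hs : ∀ u v, B u v = B v u) {u : E} (h1 : B u u = 1) (v w : E) :
    rf B u (rf B v w) = rf B (rf B u v) (rf B u w) := by
  have h2 := B_rfW hs h1 v w
  have e1 : rf B v w = w - (2 * B v w) • v := rfl
  have e2 : rf B (rf B u v) (rf B u w) = rf B u w - (2 * B (rf B u v) (rf B u w)) • rf B u v := rfl
  rw [e2, h2, e1]
  have e3 : w - (2 * B v w) • v = w + (-(2 * B v w)) • v := by module
  rw [e3, rfW_add, rfW_smul]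
  module

/-! ### permutations -/

theorem C01_swapW (a b c : E) : C01 b a c = C01 a b c := by
  ext u
  constructor
  · rintro ⟨α, β, γ, rfl, h1, h2, h3⟩
    exact ⟨β, α, γ, by abel, h2, h1, h3⟩
  · rintro ⟨α, β, γ, rfl, h1, h2, h3⟩
    exact ⟨β, α, γ, by abel, h2, h1, h3⟩

theorem C01_swapW' (a b c : E) : C01 c b a = C01 a b c := by
  ext u
  constructor
  · rintro ⟨α, β, γ, rfl, h1, h2, h3⟩
    exact ⟨γ, β, α, by abel, h3, h2, h1⟩
  · rintro ⟨α, β, γ, rfl, h1, h2, h3⟩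
    exact ⟨γ, β, α, by abel, h3, h2, h1⟩

theorem Tri.swapW {Ψ : Set E} {B : E →ₗ[ℝ] E →ₗ[ℝ] ℝ} {a b c : E} (h : Tri Ψ B a b c) :
    Tri Ψ B b a c where
  symm := h.symm
  one := h.one
  neg := h.neg
  refl := h.refl
  ha := h.hb
  hb := h.ha
  hc := h.hc
  indep := by
    intro α β γ h0
    obtain ⟨h1, h2, h3⟩ := h.indep β α γ (by rw [← h0]; abel)
    exact ⟨h2, h1, h3⟩
  pos := by
    intro u hu
    rw [C01_swapW]
    exact h.pos u hu
  fin := by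
    intro r
    refine (h.fin r).subset ?_
    rintro u ⟨hu, α, β, γ, rfl, h1, h2, h3, h4⟩
    exact ⟨hu, β, α, γ, by abel, h2, h1, h3, by linarith⟩
  inv := by
    intro u hu
    rw [C01_swapW]
    exact h.inv u hu

theorem Tri.swapW' {Ψ : Set E} {B : E →ₗ[ℝ] E →ₗ[ℝ] ℝ} {a b c : E} (h : Tri Ψ B a b c) :
    Tri Ψ B c b a where
  symm := h.symm
  one := h.one
  neg := h.neg
  refl := h.refl
  ha := h.hc
  hb := h.hb
  hc := h.ha
  indep := by
    intro α β γ h0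
    obtain ⟨h1, h2, h3⟩ := h.indep γ β α (by rw [← h0]; abel)
    exact ⟨h3, h2, h1⟩
  pos := by
    intro u hu
    rw [C01_swapW']
    exact h.pos u hu
  fin := by
    intro r
    refine (h.fin r).subset ?_
    rintro u ⟨hu, α, β, γ, rfl, h1, h2, h3, h4⟩
    exact ⟨hu, γ, β, α, by abel, h3, h2, h1, by linarith⟩
  inv := by
    intro u hu
    rw [C01_swapW']
    exact h.inv u hu

theorem Adm.swapW {Ψ : Set E} {a b c : E} {ρ : E →ₗ[ℝ] ℝ} (h : Adm Ψ a b c ρ) : Adm Ψ b a c ρ :=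
  ⟨h.fin, by rw [C01_swapW]; exact h.neg⟩

theorem Adm.swapW' {Ψ : Set E} {a b c : E} {ρ : E →ₗ[ℝ] ℝ} (h : Adm Ψ a b c ρ) : Adm Ψ c b a ρ :=
  ⟨h.fin, by rw [C01_swapW']; exact h.neg⟩

/-! ### the reflected simple system -/

section reflect

variable {Ψ : Set E} {B : E →ₗ[ℝ] E →ₗ[ℝ] ℝ} {a b c : E}

theorem rfW_comb {B : E →ₗ[ℝ] E →ₗ[ℝ] ℝ} {a b c : E} (h1 : B a a = 1) (α β γ : ℝ) :
    rf B a (α • a + β • b + γ • c) = α • (-a) + β • rf B a b + γ • rf B a c := by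
  rw [rfW_add, rfW_add, rfW_smul, rfW_smul, rfW_smul, rfW_self h1]

theorem mem_C01_rfW {B : E →ₗ[ℝ] E →ₗ[ℝ] ℝ} {a b c : E} (h1 : B a a = 1) {u : E} :
    u ∈ C01 (-a) (rf B a b) (rf B a c) ↔ rf B a u ∈ C01 a b c := by
  constructor
  · rintro ⟨α, β, γ, rfl, g1, g2, g3⟩
    refine ⟨α, β, γ, ?_, g1, g2, g3⟩
    rw [← rfW_comb h1, rfW_rf h1]
  · rintro ⟨α, β, γ, h2, g1, g2, g3⟩
    refine ⟨α, β, γ, ?_, g1, g2, g3⟩
    rw [← rfW_comb h1, ← h2, rfW_rf h1]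

theorem Tri.flipW (h : Tri Ψ B a b c) : Tri Ψ B (-a) (rf B a b) (rf B a c) := by
  have h1 : B a a = 1 := h.one a h.ha
  refine ⟨h.symm, h.one, h.neg, h.refl, h.neg a h.ha, h.refl a h.ha b h.hb, h.refl a h.ha c h.hc,
    ?_, ?_, ?_, ?_⟩
  · intro α β γ h0
    rw [← rfW_comb h1] at h0
    apply h.indep
    rw [← rfW_rf h1 (α • a + β • b + γ • c), h0]
    unfold DY.rf
    simp
  · intro u hu
    rw [mem_C01_rfW h1, mem_C01_rfW h1, rfW_neg]
    exact h.pos _ (h.refl a h.ha u hu)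
  · intro r
    refine ((h.fin r).image (DY.rf B a)).subset ?_
    rintro u ⟨hu, α, β, γ, h2, g1, g2, g3, g4⟩
    refine ⟨DY.rf B a u, ⟨h.refl a h.ha u hu, α, β, γ, ?_, g1, g2, g3, g4⟩, rfW_rf h1 u⟩
    rw [h2, ← rfW_comb h1, rfW_rf h1]
  · intro u hu
    refine ((h.inv (DY.rf B a u) (h.refl a h.ha u hu)).image (DY.rf B a)).subset ?_
    rintro v ⟨hv, g1, g2⟩
    rw [mem_C01_rfW h1] at g1 g2
    refine ⟨DY.rf B a v, ⟨h.refl a h.ha v hv, g1, ?_⟩, rfW_rf h1 v⟩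
    rw [← rfW_conj h.symm h1, ← rfW_neg]
    exact g2

/-- coordinates are unique -/
theorem Tri.coordW (h : Tri Ψ B a b c) {α β γ α' β' γ' : ℝ}
    (h0 : α • a + β • b + γ • c = α' • a + β' • b + γ' • c) : α = α' ∧ β = β' ∧ γ = γ' := by
  obtain ⟨h1, h2, h3⟩ := h.indep (α - α') (β - β') (γ - γ') (by
    have : (α - α') • a + (β - β') • b + (γ - γ') • c =
        (α • a + β • b + γ • c) - (α' • a + β' • b + γ' • c) := by module
    rw [this, h0, sub_self])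
  exact ⟨by linarith, by linarith, by linarith⟩

/-- a simple reflection permutes the other positive roots -/
theorem Tri.rf_posW (h : Tri Ψ B a b c) {u : E} (hu : u ∈ Ψ) (hp : u ∈ C01 a b c) (hne : u ≠ a) :
    DY.rf B a u ∈ C01 a b c := by
  have h1 : B a a = 1 := h.one a h.ha
  obtain ⟨α, β, γ, rfl, g1, g2, g3⟩ := hp
  rcases h.pos _ (h.refl a h.ha _ hu) with h2 | h2
  · exact h2
  · exfalso
    obtain ⟨α', β', γ', h3, k1, k2, k3⟩ := h2
    set s := 2 * B a (α • a + β • b + γ • c) with hs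
    have h4 : (-(α - s)) • a + (-β) • b + (-γ) • c = α' • a + β' • b + γ' • c := by
      rw [← h3]
      unfold DY.rf
      rw [← hs]
      module
    obtain ⟨h5, h6, h7⟩ := h.coordW h4
    have hβ : β = 0 := by
      rcases g2 with g2 | g2
      · exact g2
      · rcases k2 with k2 | k2 <;> linarith
    have hγ : γ = 0 := by
      rcases g3 with g3 | g3
      · exact g3
      · rcases k3 with k3 | k3 <;> linarith
    have h8 := h.one _ hu
    rw [hβ, hγ, zero_smul, zero_smul, add_zero, add_zero, map_smul, map_smul, LinearMap.smul_apply,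
      h1, smul_eq_mul, smul_eq_mul, mul_one] at h8
    have hα : α = 1 := by
      rcases g1 with g1 | g1
      · rw [g1] at h8
        linarith
      · nlinarith
    apply hne
    rw [hα, hβ, hγ]
    simp

/-- the new positive system contains all old positive roots but `a` -/
theorem Tri.sub_rfW (h : Tri Ψ B a b c) {u : E} (hu : u ∈ Ψ) (hp : u ∈ C01 a b c) (hne : u ≠ a) :
    u ∈ C01 (-a) (DY.rf B a b) (DY.rf B a c) :=
  (mem_C01_rfW (h.one a h.ha)).2 (h.rf_posW hu hp hne)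

/-- the old positive system contains all new positive roots but `-a` -/
theorem Tri.of_rfW (h : Tri Ψ B a b c) {u : E} (hu : u ∈ Ψ)
    (hp : u ∈ C01 (-a) (DY.rf B a b) (DY.rf B a c)) (hne : u ≠ -a) : u ∈ C01 a b c := by
  have h1 : B a a = 1 := h.one a h.ha
  rw [mem_C01_rfW h1] at hp
  have h2 := h.rf_posW (h.refl a h.ha u hu) hp (by
    intro h3
    apply hne
    rw [← rfW_rf h1 u, h3, rfW_self h1])
  rwa [rfW_rf h1] at h2

theorem Adm.flipW {ρ : E →ₗ[ℝ] ℝ} (h : Tri Ψ B a b c) (hρ : Adm Ψ a b c ρ) :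
    Adm Ψ (-a) (DY.rf B a b) (DY.rf B a c) ρ := by
  refine ⟨hρ.fin, (hρ.neg.insert (-a)).subset ?_⟩
  rintro u ⟨hu, hp, h0⟩
  by_cases hne : u = -a
  · exact Or.inl hne
  · exact Or.inr ⟨hu, h.of_rfW hu hp hne, h0⟩

end reflect

/-! ### W1 -/

/-- the goal of (W1), for a given simple system -/
private def Goal69 (Ψ : Set E) (B : E →ₗ[ℝ] E →ₗ[ℝ] ℝ) (a b c : E) (ρ : E →ₗ[ℝ] ℝ) : Prop :=
  ∃ a' b' c', Tri Ψ B a' b' c' ∧ 0 ≤ ρ a' ∧ 0 ≤ ρ b' ∧ 0 ≤ ρ c' ∧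
    {u | u ∈ Ψ ∧ u ∈ C01 a b c ∧ u ∉ C01 a' b' c'}.Finite

private theorem step69 {Ψ : Set E} {B : E →ₗ[ℝ] E →ₗ[ℝ] ℝ} {ρ : E →ₗ[ℝ] ℝ} (n : ℕ)
    (ih : ∀ m < n, ∀ a b c : E, Tri Ψ B a b c → Adm Ψ a b c ρ →
      {u | u ∈ Ψ ∧ u ∈ C01 a b c ∧ ρ u < 0}.ncard = m → Goal69 Ψ B a b c ρ)
    (a b c : E) (h : Tri Ψ B a b c) (hρ : Adm Ψ a b c ρ)
    (hn : {u | u ∈ Ψ ∧ u ∈ C01 a b c ∧ ρ u < 0}.ncard = n) (ha : ρ a < 0) : Goal69 Ψ B a b c ρ := by
  have h1 : B a a = 1 := h.one a h.ha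
  have hfin : {u | u ∈ Ψ ∧ u ∈ C01 a b c ∧ ρ u < 0}.Finite :=
    hρ.neg.subset fun u hu => ⟨hu.1, hu.2.1, hu.2.2.le⟩
  have haC : a ∈ C01 a b c := ⟨1, 0, 0, by simp, Or.inr le_rfl, Or.inl rfl, Or.inl rfl⟩
  have hlt : {u | u ∈ Ψ ∧ u ∈ C01 (-a) (rf B a b) (rf B a c) ∧ ρ u < 0}.ncard < n := by
    rw [← hn]
    apply Set.ncard_lt_ncard _ hfin
    refine ⟨?_, fun hsub => ?_⟩
    · rintro u ⟨hu, hp, h0⟩
      refine ⟨hu, h.of_rfW hu hp ?_, h0⟩
      rintro rfl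
      rw [map_neg] at h0
      linarith
    · have h2 := hsub ⟨h.ha, haC, ha⟩
      have h3 := (mem_C01_rfW h1).1 h2.2.1
      rw [rfW_self h1] at h3
      obtain ⟨α, β, γ, h4, g1, g2, g3⟩ := h3
      obtain ⟨h5, -, -⟩ := h.coordW (α := -1) (β := 0) (γ := 0) (by rw [← h4]; module)
      rcases g1 with g1 | g1 <;> linarith
  obtain ⟨a', b', c', k1, k2, k3, k4, k5⟩ := ih _ hlt _ _ _ h.flipW (hρ.flipW h) rfl
  refine ⟨a', b', c', k1, k2, k3, k4, (k5.insert a).subset ?_⟩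
  rintro u ⟨hu, hp, h0⟩
  by_cases hne : u = a
  · exact Or.inl hne
  · exact Or.inr ⟨hu, h.sub_rfW hu hp hne, h0⟩

/-- **(W1)** there is a simple system on which the centre is nonnegative, and only finitely many positive
roots change their sign -/
theorem exists_chamber {Ψ : Set E} {B : E →ₗ[ℝ] E →ₗ[ℝ] ℝ} {a b c : E} {ρ : E →ₗ[ℝ] ℝ}
    (h : Tri Ψ B a b c) (hρ : Adm Ψ a b c ρ) :
    ∃ a' b' c', Tri Ψ B a' b' c' ∧ 0 ≤ ρ a' ∧ 0 ≤ ρ b' ∧ 0 ≤ ρ c' ∧
      {u | u ∈ Ψ ∧ u ∈ C01 a b c ∧ u ∉ C01 a' b' c'}.Finite := by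
  suffices H : ∀ n : ℕ, ∀ a b c : E, Tri Ψ B a b c → Adm Ψ a b c ρ →
      {u | u ∈ Ψ ∧ u ∈ C01 a b c ∧ ρ u < 0}.ncard = n → Goal69 Ψ B a b c ρ from
    H _ a b c h hρ rfl
  intro n
  induction n using Nat.strong_induction_on with
  | _ n ih =>
    intro a b c h hρ hn
    by_cases ha : ρ a < 0
    · exact step69 n ih a b c h hρ hn ha
    by_cases hb : ρ b < 0
    · have h2 := step69 n ih b a c h.swapW hρ.swapW (by rw [C01_swapW]; exact hn) hb
      unfold Goal69 at h2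
      rw [C01_swapW] at h2
      exact h2
    by_cases hc : ρ c < 0
    · have h2 := step69 n ih c b a h.swapW' hρ.swapW' (by rw [C01_swapW']; exact hn) hc
      unfold Goal69 at h2
      rw [C01_swapW'] at h2
      exact h2
    · refine ⟨a, b, c, h, not_lt.1 ha, not_lt.1 hb, not_lt.1 hc, ?_⟩
      convert Set.finite_empty (α := E)
      ext u
      simp only [mem_ofPred_eq, mem_empty_iff_false, iff_false]
      rintro ⟨-, h1, h2⟩
      exact h2 h1

/-! ### W2 -/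

private def Goal2 (Ψ : Set E) (B : E →ₗ[ℝ] E →ₗ[ℝ] ℝ) (a b c : E) (ρ : E →ₗ[ℝ] ℝ) (x : E) : Prop :=
  ∃ b' c', Tri Ψ B x b' c' ∧ 0 ≤ ρ b' ∧ 0 ≤ ρ c' ∧
    {u | u ∈ Ψ ∧ u ∈ C01 a b c ∧ u ∉ C01 x b' c'}.Finite

/-- positive combinations with bounded sum of the coordinates -/
private def Low69 (Ψ : Set E) (a b c : E) (r : ℝ) : Set E :=
  {u | u ∈ Ψ ∧ ∃ α β γ : ℝ, u = α • a + β • b + γ • c ∧ 0 ≤ α ∧ 0 ≤ β ∧ 0 ≤ γ ∧ α + β + γ ≤ r}

private theorem low_swap69 (Ψ : Set E) (a b c : E) (r : ℝ) : Low69 Ψ b a c r = Low69 Ψ a b c r := by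
  ext u
  constructor
  · rintro ⟨hu, α, β, γ, h0, h1, h2, h3, h4⟩
    exact ⟨hu, β, α, γ, by rw [h0]; abel, h2, h1, h3, by linarith⟩
  · rintro ⟨hu, α, β, γ, h0, h1, h2, h3, h4⟩
    exact ⟨hu, β, α, γ, by rw [h0]; abel, h2, h1, h3, by linarith⟩

private theorem low_swap69' (Ψ : Set E) (a b c : E) (r : ℝ) : Low69 Ψ c b a r = Low69 Ψ a b c r := by
  ext u
  constructor
  · rintro ⟨hu, α, β, γ, h0, h1, h2, h3, h4⟩
    exact ⟨hu, γ, β, α, by rw [h0]; abel, h3, h2, h1, by linarith⟩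
  · rintro ⟨hu, α, β, γ, h0, h1, h2, h3, h4⟩
    exact ⟨hu, γ, β, α, by rw [h0]; abel, h3, h2, h1, by linarith⟩

private theorem low_rf69 {Ψ : Set E} {B : E →ₗ[ℝ] E →ₗ[ℝ] ℝ} {a b c : E} (h : Tri Ψ B a b c) (r : ℝ) :
    Low69 Ψ (-a) (rf B a b) (rf B a c) r = rf B a '' Low69 Ψ a b c r := by
  have h1 : B a a = 1 := h.one a h.ha
  ext u
  constructor
  · rintro ⟨hu, α, β, γ, h0, g⟩
    refine ⟨rf B a u, ⟨h.refl a h.ha u hu, α, β, γ, ?_, g⟩, rfW_rf h1 u⟩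
    rw [h0, ← rfW_comb h1, rfW_rf h1]
  · rintro ⟨v, ⟨hv, α, β, γ, h0, g⟩, rfl⟩
    refine ⟨h.refl a h.ha v hv, α, β, γ, ?_, g⟩
    rw [h0, rfW_comb h1]

private theorem step2 {Ψ : Set E} {B : E →ₗ[ℝ] E →ₗ[ℝ] ℝ} {ρ : E →ₗ[ℝ] ℝ} {x : E} (hx : x ∈ Ψ) (n : ℕ)
    (ih : ∀ m < n, ∀ a b c : E, Tri Ψ B a b c → 0 ≤ ρ a → 0 ≤ ρ b → 0 ≤ ρ c → ∀ α β γ : ℝ,
      x = α • a + β • b + γ • c → Z1 α → Z1 β → Z1 γ → (Low69 Ψ a b c (α + β + γ)).ncard = m →
      Goal2 Ψ B a b c ρ x)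
    (a b c : E) (h : Tri Ψ B a b c) (ha : ρ a = 0) (hb : 0 ≤ ρ b) (hc : 0 ≤ ρ c) (α β γ : ℝ)
    (h0 : x = α • a + β • b + γ • c) (g1 : Z1 α) (g2 : Z1 β) (g3 : Z1 γ)
    (hn : (Low69 Ψ a b c (α + β + γ)).ncard = n) (hB : 0 < B a x) : Goal2 Ψ B a b c ρ x := by
  have h1 : B a a = 1 := h.one a h.ha
  have hxC : x ∈ C01 a b c := ⟨α, β, γ, h0, g1, g2, g3⟩
  have e0 : ∀ {t : ℝ}, Z1 t → 0 ≤ t := by
    intro t ht
    rcases ht with ht | ht <;> linarith
  by_cases hxa : x = a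
  · subst hxa
    refine ⟨b, c, h, hb, hc, ?_⟩
    convert Set.finite_empty (α := E)
    ext u
    simp only [mem_ofPred_eq, mem_empty_iff_false, iff_false]
    rintro ⟨-, h1, h2⟩
    exact h2 h1
  · have h2 := h.rf_posW hx hxC hxa
    obtain ⟨α', β', γ', h3, k1, k2, k3⟩ := h2
    have h4 : rf B a x = (α - 2 * B a x) • a + β • b + γ • c := by
      have : rf B a x = x - (2 * B a x) • a := rfl
      rw [this]
      nth_rw 1 [h0]
      module
    have h5 : (α - 2 * B a x) • a + β • b + γ • c = α' • a + β' • b + γ' • c := by rw [← h4, h3]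
    obtain ⟨h6, h7, h8⟩ := h.coordW h5
    have hx' : x = α' • (-a) + β' • rf B a b + γ' • rf B a c := by
      rw [← rfW_comb h1, ← h3, rfW_rf h1]
    have hlt : (Low69 Ψ (-a) (rf B a b) (rf B a c) (α' + β' + γ')).ncard < n := by
      rw [low_rf69 h, ← hn]
      refine lt_of_le_of_lt (Set.ncard_image_le (h.fin _)) ?_
      apply Set.ncard_lt_ncard _ (h.fin _)
      refine ⟨?_, fun hsub => ?_⟩
      · rintro u ⟨hu, α1, β1, γ1, q0, q1, q2, q3, q4⟩
        exact ⟨hu, α1, β1, γ1, q0, q1, q2, q3, by linarith⟩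
      · obtain ⟨-, α1, β1, γ1, q0, q1, q2, q3, q4⟩ :=
          hsub ⟨hx, α, β, γ, h0, e0 g1, e0 g2, e0 g3, le_rfl⟩
        obtain ⟨h9, h10, h11⟩ := h.coordW (q0.symm.trans h0)
        linarith
    have hρb : ρ (rf B a b) = ρ b := by
      have : rf B a b = b - (2 * B a b) • a := rfl
      rw [this, map_sub, map_smul, ha, smul_zero, sub_zero]
    have hρc : ρ (rf B a c) = ρ c := by
      have : rf B a c = c - (2 * B a c) • a := rfl
      rw [this, map_sub, map_smul, ha, smul_zero, sub_zero]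
    obtain ⟨b', c', l1, l2, l3, l4⟩ := ih _ hlt _ _ _ h.flipW (by rw [map_neg, ha, neg_zero])
      (by rw [hρb]; exact hb) (by rw [hρc]; exact hc) α' β' γ' hx' k1 k2 k3 rfl
    refine ⟨b', c', l1, l2, l3, (l4.insert a).subset ?_⟩
    rintro u ⟨hu, hp, q0⟩
    by_cases hne : u = a
    · exact Or.inl hne
    · exact Or.inr ⟨hu, h.sub_rfW hu hp hne, q0⟩

private theorem wall69 {Ψ : Set E} {B : E →ₗ[ℝ] E →ₗ[ℝ] ℝ} {a b c : E} {ρ : E →ₗ[ℝ] ℝ} {x : E}
    (h : Tri Ψ B a b c) (ha : 0 ≤ ρ a) (hb : 0 ≤ ρ b) (hc : 0 ≤ ρ c) (hx : x ∈ Ψ)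
    (hxp : x ∈ C01 a b c) (hx0 : ρ x = 0) : Goal2 Ψ B a b c ρ x := by
  suffices H : ∀ n : ℕ, ∀ a b c : E, Tri Ψ B a b c → 0 ≤ ρ a → 0 ≤ ρ b → 0 ≤ ρ c → ∀ α β γ : ℝ,
      x = α • a + β • b + γ • c → Z1 α → Z1 β → Z1 γ → (Low69 Ψ a b c (α + β + γ)).ncard = n →
      Goal2 Ψ B a b c ρ x by
    obtain ⟨α, β, γ, h0, g1, g2, g3⟩ := hxp
    exact H _ a b c h ha hb hc α β γ h0 g1 g2 g3 rfl
  intro n
  induction n using Nat.strong_induction_on with
  | _ n ih =>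
    intro a b c h ha hb hc α β γ h0 g1 g2 g3 hn
    have e0 : ∀ {t : ℝ}, Z1 t → 0 ≤ t := by
      intro t ht
      rcases ht with ht | ht <;> linarith
    have hsum : α * ρ a + β * ρ b + γ * ρ c = 0 := by
      have h1 := hx0
      rw [h0, map_add, map_add, map_smul, map_smul, map_smul] at h1
      simpa only [smul_eq_mul] using h1
    have p1 := mul_nonneg (e0 g1) ha
    have p2 := mul_nonneg (e0 g2) hb
    have p3 := mul_nonneg (e0 g3) hc
    have hone : α * B a x + β * B b x + γ * B c x = 1 := by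
      have h1 := h.one x hx
      nth_rw 1 [h0] at h1
      rw [map_add, map_add, map_smul, map_smul, map_smul] at h1
      simpa only [LinearMap.add_apply, LinearMap.smul_apply, smul_eq_mul] using h1
    have key : ∀ {t s r : ℝ}, Z1 t → 0 < t * s → t * r = 0 → 0 < s ∧ r = 0 := by
      intro t s r ht h1 h2
      have ht0 : 0 < t := by
        rcases (e0 ht).lt_or_eq with h3 | h3
        · exact h3
        · rw [← h3, zero_mul] at h1
          exact absurd h1 (lt_irrefl _)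
      exact ⟨(mul_pos_iff_of_pos_left ht0).1 h1, (mul_eq_zero.1 h2).resolve_left ht0.ne'⟩
    by_cases q1 : 0 < α * B a x
    · obtain ⟨k1, k2⟩ := key g1 q1 (by linarith : α * ρ a = 0)
      exact step2 hx n ih a b c h k2 hb hc α β γ h0 g1 g2 g3 hn k1
    by_cases q2 : 0 < β * B b x
    · obtain ⟨k1, k2⟩ := key g2 q2 (by linarith : β * ρ b = 0)
      have h2 := step2 hx n ih b a c h.swapW k2 ha hc β α γ (by rw [h0]; abel) g2 g1 g3
        (by rw [low_swap69, add_comm β α]; exact hn) k1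
      unfold Goal2 at h2
      rw [C01_swapW] at h2
      exact h2
    by_cases q3 : 0 < γ * B c x
    · obtain ⟨k1, k2⟩ := key g3 q3 (by linarith : γ * ρ c = 0)
      have h2 := step2 hx n ih c b a h.swapW' k2 hb ha γ β α (by rw [h0]; abel) g3 g2 g1
        (by
          rw [low_swap69']
          have : γ + β + α = α + β + γ := by ring
          rw [this]
          exact hn) k1
      unfold Goal2 at h2
      rw [C01_swapW'] at h2
      exact h2
    · exfalso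
      linarith

/-- **(W2)** if the centre lies on the mirror `x`, then `x` can be taken as a simple root (other roots may
vanish at the centre as well) -/
theorem exists_chamber_wall {Ψ : Set E} {B : E →ₗ[ℝ] E →ₗ[ℝ] ℝ} {a b c : E} {ρ : E →ₗ[ℝ] ℝ}
    (h : Tri Ψ B a b c) (hρ : Adm Ψ a b c ρ) {x : E} (hx : x ∈ Ψ) (hx0 : ρ x = 0) :
    ∃ b' c', Tri Ψ B x b' c' ∧ 0 ≤ ρ b' ∧ 0 ≤ ρ c' ∧
      {u | u ∈ Ψ ∧ u ∈ C01 a b c ∧ u ∉ C01 x b' c'}.Finite := by
  obtain ⟨a1, b1, c1, h1, k1, k2, k3, k4⟩ := exists_chamber h hρ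
  rcases h1.pos x hx with hp | hp
  · obtain ⟨b', c', l1, l2, l3, l4⟩ := wall69 h1 k1 k2 k3 hx hp hx0
    refine ⟨b', c', l1, l2, l3, (k4.union l4).subset ?_⟩
    rintro u ⟨hu, g1, g2⟩
    by_cases g3 : u ∈ C01 a1 b1 c1
    · exact Or.inr ⟨hu, g3, g2⟩
    · exact Or.inl ⟨hu, g1, g3⟩
  · obtain ⟨b', c', l1, l2, l3, l4⟩ := wall69 h1 k1 k2 k3 (h.neg x hx) hp (by rw [map_neg, hx0, neg_zero])
    have hr := l1.flipW
    rw [neg_neg] at hr
    have hρx : ρ (-x) = 0 := by rw [map_neg, hx0, neg_zero]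
    refine ⟨rf B (-x) b', rf B (-x) c', hr, ?_, ?_, ((k4.union l4).insert (-x)).subset ?_⟩
    · have : rf B (-x) b' = b' - (2 * B (-x) b') • (-x) := rfl
      rw [this, map_sub, map_smul, hρx, smul_zero, sub_zero]
      exact l2
    · have : rf B (-x) c' = c' - (2 * B (-x) c') • (-x) := rfl
      rw [this, map_sub, map_smul, hρx, smul_zero, sub_zero]
      exact l3
    · rintro u ⟨hu, g1, g2⟩
      by_cases g0 : u = -x
      · exact Or.inl g0
      refine Or.inr ?_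
      by_cases g3 : u ∈ C01 a1 b1 c1
      · refine Or.inr ⟨hu, g3, fun g4 => g2 ?_⟩
        have := l1.sub_rfW hu g4 g0
        rwa [neg_neg] at this
      · exact Or.inl ⟨hu, g1, g3⟩

/-- **(W2')** the version with strict inequalities -/
theorem exists_chamber_wall' {Ψ : Set E} {B : E →ₗ[ℝ] E →ₗ[ℝ] ℝ} {a b c : E} {ρ : E →ₗ[ℝ] ℝ}
    (h : Tri Ψ B a b c) (hρ : Adm Ψ a b c ρ) {x : E} (hx : x ∈ Ψ) (hx0 : ρ x = 0)
    (hne : ∀ u ∈ Ψ, ρ u = 0 → u = x ∨ u = -x) :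
    ∃ b' c', Tri Ψ B x b' c' ∧ 0 < ρ b' ∧ 0 < ρ c' ∧
      {u | u ∈ Ψ ∧ u ∈ C01 a b c ∧ u ∉ C01 x b' c'}.Finite := by
  obtain ⟨b', c', l1, l2, l3, l4⟩ := exists_chamber_wall h hρ hx hx0
  refine ⟨b', c', l1, lt_of_le_of_ne l2 fun h0 => ?_, lt_of_le_of_ne l3 fun h0 => ?_, l4⟩
  · rcases hne b' l1.hb h0.symm with h2 | h2
    · have := l1.indep 1 (-1) 0 (by rw [h2]; module)
      linarith [this.1]
    · have := l1.indep 1 1 0 (by rw [h2]; module)
      linarith [this.1]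
  · rcases hne c' l1.hc h0.symm with h2 | h2
    · have := l1.indep 1 0 (-1) (by rw [h2]; module)
      linarith [this.1]
    · have := l1.indep 1 0 1 (by rw [h2]; module)
      linarith [this.1]

/-! ### W3 -/

/-- a linear form with prescribed values on three independent vectors -/
theorem exists_form3 {a b c : E} (hi : ∀ α β γ : ℝ, α • a + β • b + γ • c = 0 → α = 0 ∧ β = 0 ∧ γ = 0)
    (p q r : ℝ) : ∃ f : E →ₗ[ℝ] ℝ, f a = p ∧ f b = q ∧ f c = r := by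
  have hv : LinearIndependent ℝ ![a, b, c] := by
    rw [Fintype.linearIndependent_iff]
    intro g hg
    rw [Fin.sum_univ_three] at hg
    obtain ⟨h1, h2, h3⟩ := hi (g 0) (g 1) (g 2) hg
    intro i
    fin_cases i
    · exact h1
    · exact h2
    · exact h3
  obtain ⟨f, hf⟩ := LinearMap.exists_extend
    ((Fintype.linearCombination ℝ ![p, q, r]).comp
      ((Finsupp.linearEquivFunOnFinite ℝ ℝ (Fin 3)).toLinearMap.comp hv.repr))
  have key : ∀ i : Fin 3, f (![a, b, c] i) = ![p, q, r] i := by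
    intro i
    have h1 := LinearMap.congr_fun hf ⟨![a, b, c] i, Submodule.subset_span ⟨i, rfl⟩⟩
    simp only [LinearMap.comp_apply, Submodule.subtype_apply] at h1
    rw [h1, hv.repr_eq_single i _ rfl]
    simp [Fintype.linearCombination_apply, Pi.single_apply]
  exact ⟨f, key 0, key 1, key 2⟩

/-- **(W3)** a centre on the mirror `x` can be moved along `x` such that no other mirror contains it,
without changing the ball of radius `R` -/
theorem exists_generic_wall {Ψ : Set E} {B : E →ₗ[ℝ] E →ₗ[ℝ] ℝ} {a b c : E} {ρ : E →ₗ[ℝ] ℝ}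
    (h : Tri Ψ B a b c) (hρ : Adm Ψ a b c ρ) {x : E} (hx : x ∈ Ψ) (hx0 : ρ x = 0) (R : ℝ) :
    ∃ (ρ' : E →ₗ[ℝ] ℝ) (R' : ℝ), Adm Ψ a b c ρ' ∧ ρ' x = 0 ∧ (∀ u ∈ Ψ, ρ' u = 0 → u = x ∨ u = -x) ∧
      ∀ u ∈ Ψ, |ρ' u| ≤ R' ↔ |ρ u| ≤ R := by
  obtain ⟨b', c', h1, hb, hc, hfin⟩ := exists_chamber_wall h hρ hx hx0
  obtain ⟨δ, d1, d2, d3⟩ := exists_form3 h1.indep 0 1 1
  have e0 : ∀ {t : ℝ}, Z1 t → 0 ≤ t := by
    intro t ht
    rcases ht with ht | ht <;> linarith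
  -- on positive roots
  have hδ : ∀ u ∈ Ψ, u ∈ C01 x b' c' → 0 ≤ ρ u ∧ 0 ≤ δ u ∧ (δ u = 0 → u = x) := by
    intro u hu hp
    obtain ⟨α, β, γ, h0, g1, g2, g3⟩ := hp
    have e1 : ρ u = β * ρ b' + γ * ρ c' := by
      rw [h0, map_add, map_add, map_smul, map_smul, map_smul, hx0]
      simp only [smul_eq_mul]
      ring
    have e2 : δ u = β + γ := by
      rw [h0, map_add, map_add, map_smul, map_smul, map_smul, d1, d2, d3]
      simp only [smul_eq_mul]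
      ring
    refine ⟨?_, ?_, ?_⟩
    · rw [e1]
      exact add_nonneg (mul_nonneg (e0 g2) hb) (mul_nonneg (e0 g3) hc)
    · rw [e2]
      exact add_nonneg (e0 g2) (e0 g3)
    · intro h2
      rw [e2] at h2
      have hβ : β = 0 := by linarith [e0 g2, e0 g3]
      have hγ : γ = 0 := by linarith [e0 g2, e0 g3]
      have h8 := h.one _ hu
      have h1x := h.one x hx
      rw [h0, hβ, hγ, zero_smul, zero_smul, add_zero, add_zero, map_smul, map_smul,
        LinearMap.smul_apply, h1x, smul_eq_mul, smul_eq_mul, mul_one] at h8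
      have hα : α = 1 := by
        rcases g1 with g1 | g1
        · rw [g1] at h8
          linarith
        · nlinarith
      rw [h0, hα, hβ, hγ]
      simp
  -- the bound of `δ` on the ball
  have hKfin : {u | u ∈ Ψ ∧ |ρ u| ≤ R}.Finite := hρ.fin R
  obtain ⟨Mb, hMb⟩ : ∃ Mb : ℝ, ∀ u ∈ Ψ, |ρ u| ≤ R → |δ u| ≤ Mb := by
    obtain ⟨Mb, hMb⟩ := (hKfin.image fun u => |δ u|).bddAbove
    exact ⟨Mb, fun u hu hR => hMb ⟨u, ⟨hu, hR⟩, rfl⟩⟩
  -- the gap
  obtain ⟨g, hg0, hg⟩ : ∃ g : ℝ, 0 < g ∧ ∀ u ∈ Ψ, R < |ρ u| → R + g ≤ |ρ u| := by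
    have hfin1 : {u | u ∈ Ψ ∧ |ρ u| ≤ R + 1}.Finite := hρ.fin (R + 1)
    have hfin2 : {u | u ∈ Ψ ∧ |ρ u| ≤ R + 1 ∧ R < |ρ u|}.Finite :=
      hfin1.subset fun u hu => ⟨hu.1, hu.2.1⟩
    rcases Set.eq_empty_or_nonempty {u | u ∈ Ψ ∧ |ρ u| ≤ R + 1 ∧ R < |ρ u|} with hem | hne
    · refine ⟨1, one_pos, fun u hu hR => ?_⟩
      by_contra hcon
      rw [not_le] at hcon
      have : u ∈ {u | u ∈ Ψ ∧ |ρ u| ≤ R + 1 ∧ R < |ρ u|} := ⟨hu, hcon.le, hR⟩
      rw [hem] at this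
      exact this
    · obtain ⟨v, hv, hvm⟩ := hfin2.exists_minimalFor (fun u => |ρ u|) _ hne
      refine ⟨|ρ v| - R, by linarith [hv.2.2], fun u hu hR => ?_⟩
      by_contra hcon
      rw [not_le] at hcon
      have h2 : |ρ u| ≤ R + 1 := by linarith [hv.2.1]
      have h3 := hvm ⟨hu, h2, hR⟩ (by
        show |ρ u| ≤ |ρ v|
        linarith)
      have h4 : |ρ v| ≤ |ρ u| := h3
      linarith
  set ε : ℝ := g / (2 * (|Mb| + 1)) with hε
  have hMpos : 0 < |Mb| + 1 := by positivity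
  have hε0 : 0 < ε := by positivity
  have hεM : ε * (|Mb| + 1) = g / 2 := by
    rw [hε]
    field_simp
  set ρ' : E →ₗ[ℝ] ℝ := ρ + ε • δ with hρ'
  have hval : ∀ u, ρ' u = ρ u + ε * δ u := fun u => by
    rw [hρ']
    rfl
  -- absolute values
  have habs : ∀ u ∈ Ψ, |ρ' u| = |ρ u| + ε * |δ u| := by
    intro u hu
    rcases h1.pos u hu with hp | hp
    · obtain ⟨q1, q2, -⟩ := hδ u hu hp
      rw [hval, abs_of_nonneg (add_nonneg q1 (mul_nonneg hε0.le q2)), abs_of_nonneg q1,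
        abs_of_nonneg q2]
    · obtain ⟨q1, q2, -⟩ := hδ (-u) (h.neg u hu) hp
      rw [map_neg] at q1 q2
      rw [← abs_neg, hval, ← abs_neg (ρ u), ← abs_neg (δ u)]
      have e3 : -(ρ u + ε * δ u) = -ρ u + ε * (-δ u) := by ring
      rw [e3, abs_of_nonneg (add_nonneg q1 (mul_nonneg hε0.le q2)), abs_of_nonneg q1,
        abs_of_nonneg q2]
  refine ⟨ρ', R + g / 2, ⟨?_, ?_⟩, ?_, ?_, ?_⟩
  · intro r
    refine (hρ.fin r).subset ?_
    rintro u ⟨hu, hr⟩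
    refine ⟨hu, ?_⟩
    rw [habs u hu] at hr
    have := mul_nonneg hε0.le (abs_nonneg (δ u))
    linarith
  · refine (hfin.insert x).subset ?_
    rintro u ⟨hu, hp, hr⟩
    by_cases hp1 : u ∈ C01 x b' c'
    · obtain ⟨q1, q2, q3⟩ := hδ u hu hp1
      rw [hval] at hr
      have q4 := mul_nonneg hε0.le q2
      have q5 : ε * δ u = 0 := by linarith
      exact Or.inl (q3 ((mul_eq_zero.1 q5).resolve_left hε0.ne'))
    · exact Or.inr ⟨hu, hp, hp1⟩
  · rw [hval, hx0, d1, mul_zero, add_zero]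
  · intro u hu h0
    rcases h1.pos u hu with hp | hp
    · obtain ⟨q1, q2, q3⟩ := hδ u hu hp
      rw [hval] at h0
      have q4 := mul_nonneg hε0.le q2
      have q5 : ε * δ u = 0 := by linarith
      exact Or.inl (q3 ((mul_eq_zero.1 q5).resolve_left hε0.ne'))
    · obtain ⟨q1, q2, q3⟩ := hδ (-u) (h.neg u hu) hp
      rw [map_neg] at q1 q2 q3
      rw [hval] at h0
      have q4 := mul_nonneg hε0.le q2
      have q5 : ε * (-δ u) = 0 := by linarith
      have q6 := q3 ((mul_eq_zero.1 q5).resolve_left hε0.ne')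
      exact Or.inr (by rw [← q6, neg_neg])
  · intro u hu
    rw [habs u hu]
    constructor
    · intro h2
      by_contra h3
      rw [not_le] at h3
      have h4 := hg u hu h3
      have h5 := mul_nonneg hε0.le (abs_nonneg (δ u))
      linarith
    · intro h2
      have h3 := hMb u hu h2
      have h4 : |δ u| ≤ |Mb| + 1 := by linarith [le_abs_self Mb]
      have h5 := mul_le_mul_of_nonneg_left h4 hε0.le
      linarith

end DY
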