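import Pool.Agent.Helper69.DY.W

/-!
# Block [W3]: generic centres on a mirror (MP_d13a5e_al)
-/

namespace DY

open Set

variable {E : Type*} [AddCommGroup E] [Module ℝ E]

/-- a real number in `(1, 2)` outside a finite set -/
private theorem exists_avoid69 {F : Set ℝ} (hF : F.Finite) : ∃ s : ℝ, 1 < s ∧ s < 2 ∧ s ∉ F := by
  have h1 : (Set.Ioo (1 : ℝ) 2).Infinite := Set.Ioo_infinite (by norm_num)
  obtain ⟨s, hs, hsF⟩ := h1.exists_notMem_finite hF
  exact ⟨s, hs.1, hs.2, hsF⟩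

/-- **(W3')** a centre on the mirror `x` can be moved along `x` such that no other mirror contains it,
without changing the ball of radius `R`, and such that two mirrors of the ball have the same distance only if
they differ by a multiple of `x`. `τ` is a second coordinate along the mirror `x`. -/
theorem exists_generic_wall2 {Ψ : Set E} {B : E →ₗ[ℝ] E →ₗ[ℝ] ℝ} {a b c : E} {ρ : E →ₗ[ℝ] ℝ}
    (h : Tri Ψ B a b c) (hρ : Adm Ψ a b c ρ) {x : E} (hx : x ∈ Ψ) (hx0 : ρ x = 0) (R : ℝ) :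
    ∃ (ρ' : E →ₗ[ℝ] ℝ) (R' : ℝ) (τ : E →ₗ[ℝ] ℝ), Adm Ψ a b c ρ' ∧ R ≤ R' ∧ ρ' x = 0 ∧
      (∀ u ∈ Ψ, ρ' u = 0 → u = x ∨ u = -x) ∧
      (∀ u ∈ Ψ, |ρ' u| ≤ R' ↔ |ρ u| ≤ R) ∧
      (∀ u ∈ Ψ, |ρ u| ≤ |ρ' u|) ∧
      (∀ u ∈ Ψ, 0 < ρ u → 0 < ρ' u) ∧
      (∀ u ∈ Ψ, ∀ v ∈ Ψ, |ρ' u| ≤ R' → ρ' u = ρ' v → ∃ l : ℝ, v = u + l • x) ∧
      τ x = 0 ∧
      (∀ u ∈ Ψ, ∀ v ∈ Ψ, ρ' u ≠ 0 → τ u * ρ' v = τ v * ρ' u → ∃ l m : ℝ, v = l • u + m • x) := by
  obtain ⟨b', c', h1, hb, hc, hfin⟩ := exists_chamber_wall h hρ hx hx0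
  obtain ⟨f, f1, f2, f3⟩ := exists_form3 h1.indep 0 1 0
  obtain ⟨τ, t1, t2, t3⟩ := exists_form3 h1.indep 0 0 1
  have e0 : ∀ {t : ℝ}, Z1 t → 0 ≤ t := by
    intro t ht
    rcases ht with ht | ht <;> linarith
  -- coordinates
  have hco : ∀ u ∈ Ψ, ∃ α : ℝ, u = α • x + f u • b' + τ u • c' := by
    have key : ∀ u : E, u ∈ C01 x b' c' → ∃ α : ℝ, u = α • x + f u • b' + τ u • c' := by
      rintro u ⟨α, β, γ, h0, g1, g2, g3⟩
      refine ⟨α, ?_⟩
      have e1 : f u = β := by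
        rw [h0, map_add, map_add, map_smul, map_smul, map_smul, f1, f2, f3]
        simp only [smul_eq_mul]
        ring
      have e2 : τ u = γ := by
        rw [h0, map_add, map_add, map_smul, map_smul, map_smul, t1, t2, t3]
        simp only [smul_eq_mul]
        ring
      rw [e1, e2]
      exact h0
    intro u hu
    rcases h1.pos u hu with hp | hp
    · exact key u hp
    · obtain ⟨α, hα⟩ := key (-u) hp
      refine ⟨-α, ?_⟩
      rw [map_neg, map_neg] at hα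
      have h2 : u = -(α • x + -f u • b' + -τ u • c') := by rw [← hα, neg_neg]
      nth_rw 1 [h2]
      module
  have hρv : ∀ u ∈ Ψ, ρ u = f u * ρ b' + τ u * ρ c' := by
    intro u hu
    obtain ⟨α, hα⟩ := hco u hu
    nth_rw 1 [hα]
    rw [map_add, map_add, map_smul, map_smul, map_smul, hx0]
    simp only [smul_eq_mul]
    ring
  -- on positive roots
  have hδ : ∀ u ∈ Ψ, u ∈ C01 x b' c' → 0 ≤ ρ u ∧ 0 ≤ f u ∧ 0 ≤ τ u ∧ (f u = 0 → τ u = 0 → u = x) := by
    intro u hu hp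
    obtain ⟨α, β, γ, h0, g1, g2, g3⟩ := hp
    have e1 : f u = β := by
      rw [h0, map_add, map_add, map_smul, map_smul, map_smul, f1, f2, f3]
      simp only [smul_eq_mul]
      ring
    have e2 : τ u = γ := by
      rw [h0, map_add, map_add, map_smul, map_smul, map_smul, t1, t2, t3]
      simp only [smul_eq_mul]
      ring
    refine ⟨?_, ?_, ?_, ?_⟩
    · rw [hρv u hu, e1, e2]
      exact add_nonneg (mul_nonneg (e0 g2) hb) (mul_nonneg (e0 g3) hc)
    · rw [e1]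
      exact e0 g2
    · rw [e2]
      exact e0 g3
    · intro h2 h3
      have hβ : β = 0 := by rw [← e1, h2]
      have hγ : γ = 0 := by rw [← e2, h3]
      have h8 := h.one _ hu
      have h1x := h.one x hx
      rw [h0, hβ, hγ, zero_smul, zero_smul, add_zero, add_zero, map_smul, map_smul,
        LinearMap.smul_apply, h1x, smul_eq_mul, smul_eq_mul, mul_one] at h8
      have hα : α = 1 := by
        rcases g1 with g1 | g1
        · rw [g1] at h8
          linarith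
        · nlinarith
      rw [h0, hα, hβ, hγ]
      simp
  -- the bound of `f, τ` on the ball
  have hKfin : {u | u ∈ Ψ ∧ |ρ u| ≤ R}.Finite := hρ.fin R
  obtain ⟨Mb, hMb⟩ : ∃ Mb : ℝ, ∀ u ∈ Ψ, |ρ u| ≤ R → |f u| + 2 * |τ u| ≤ Mb := by
    obtain ⟨Mb, hMb⟩ := (hKfin.image fun u => |f u| + 2 * |τ u|).bddAbove
    exact ⟨Mb, fun u hu hR => hMb ⟨u, ⟨hu, hR⟩, rfl⟩⟩
  -- the gap
  obtain ⟨g, hg0, hg⟩ : ∃ g : ℝ, 0 < g ∧ ∀ u ∈ Ψ, R < |ρ u| → R + g ≤ |ρ u| := by
    have hfin1 : {u | u ∈ Ψ ∧ |ρ u| ≤ R + 1}.Finite := hρ.fin (R + 1)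
    have hfin2 : {u | u ∈ Ψ ∧ |ρ u| ≤ R + 1 ∧ R < |ρ u|}.Finite :=
      hfin1.subset fun u hu => ⟨hu.1, hu.2.1⟩
    rcases Set.eq_empty_or_nonempty {u | u ∈ Ψ ∧ |ρ u| ≤ R + 1 ∧ R < |ρ u|} with hem | hne
    · refine ⟨1, one_pos, fun u hu hR => ?_⟩
      by_contra hcon
      rw [not_le] at hcon
      have : u ∈ {u | u ∈ Ψ ∧ |ρ u| ≤ R + 1 ∧ R < |ρ u|} := ⟨hu, hcon.le, hR⟩
      rw [hem] at this
      exact this
    · obtain ⟨v, hv, hvm⟩ := hfin2.exists_minimalFor (fun u => |ρ u|) _ hne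
      refine ⟨|ρ v| - R, by linarith [hv.2.2], fun u hu hR => ?_⟩
      by_contra hcon
      rw [not_le] at hcon
      have h2 : |ρ u| ≤ R + 1 := by linarith [hv.2.1]
      have h3 := hvm ⟨hu, h2, hR⟩ (by
        show |ρ u| ≤ |ρ v|
        linarith)
      have h4 : |ρ v| ≤ |ρ u| := h3
      linarith
  set ε : ℝ := g / (2 * (|Mb| + 1)) with hε
  have hMpos : 0 < |Mb| + 1 := by positivity
  have hε0 : 0 < ε := by positivity
  have hεM : ε * (|Mb| + 1) = g / 2 := by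
    rw [hε]
    field_simp
  -- the choice of the direction
  obtain ⟨s, hs1, hs2, hsF⟩ := exists_avoid69
    (F := (fun p : E × E => -((ρ p.1 - ρ p.2) + ε * (f p.1 - f p.2)) / (ε * (τ p.1 - τ p.2))) ''
      ({u | u ∈ Ψ ∧ |ρ u| ≤ R} ×ˢ {u | u ∈ Ψ ∧ |ρ u| ≤ R})) ((hKfin.prod hKfin).image _)
  set δ : E →ₗ[ℝ] ℝ := f + s • τ with hδdef
  have hδv : ∀ u, δ u = f u + s * τ u := fun u => by
    rw [hδdef]
    rfl
  set ρ' : E →ₗ[ℝ] ℝ := ρ + ε • δ with hρ'
  have hval : ∀ u, ρ' u = ρ u + ε * δ u := fun u => by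
    rw [hρ']
    rfl
  have hs0 : 0 < s := by linarith
  -- `δ` on positive roots
  have hδ2 : ∀ u ∈ Ψ, u ∈ C01 x b' c' → 0 ≤ ρ u ∧ 0 ≤ δ u ∧ (δ u = 0 → u = x) := by
    intro u hu hp
    obtain ⟨q1, q2, q3, q4⟩ := hδ u hu hp
    have q5 := mul_nonneg hs0.le q3
    refine ⟨q1, by rw [hδv]; linarith, fun q6 => ?_⟩
    rw [hδv] at q6
    have q7 : f u = 0 := by linarith
    have q8 : s * τ u = 0 := by linarith
    exact q4 q7 ((mul_eq_zero.1 q8).resolve_left hs0.ne')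
  -- absolute values
  have habs : ∀ u ∈ Ψ, |ρ' u| = |ρ u| + ε * |δ u| := by
    intro u hu
    rcases h1.pos u hu with hp | hp
    · obtain ⟨q1, q2, -⟩ := hδ2 u hu hp
      rw [hval, abs_of_nonneg (add_nonneg q1 (mul_nonneg hε0.le q2)), abs_of_nonneg q1,
        abs_of_nonneg q2]
    · obtain ⟨q1, q2, -⟩ := hδ2 (-u) (h.neg u hu) hp
      rw [map_neg] at q1 q2
      rw [← abs_neg, hval, ← abs_neg (ρ u), ← abs_neg (δ u)]
      have e3 : -(ρ u + ε * δ u) = -ρ u + ε * (-δ u) := by ring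
      rw [e3, abs_of_nonneg (add_nonneg q1 (mul_nonneg hε0.le q2)), abs_of_nonneg q1,
        abs_of_nonneg q2]
  have hball : ∀ u ∈ Ψ, |ρ' u| ≤ R + g / 2 ↔ |ρ u| ≤ R := by
    intro u hu
    rw [habs u hu]
    constructor
    · intro h2
      by_contra h3
      rw [not_le] at h3
      have h4 := hg u hu h3
      have h5 := mul_nonneg hε0.le (abs_nonneg (δ u))
      linarith
    · intro h2
      have h3 := hMb u hu h2
      have h4 : |δ u| ≤ |Mb| + 1 := by
        have h6 : |δ u| ≤ |f u| + s * |τ u| := by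
          rw [hδv]
          refine (abs_add_le _ _).trans ?_
          rw [abs_mul, abs_of_pos hs0]
        have h7 := mul_le_mul_of_nonneg_right hs2.le (abs_nonneg (τ u))
        linarith [le_abs_self Mb]
      have h5 := mul_le_mul_of_nonneg_left h4 hε0.le
      linarith
  have hP : 0 < ρ b' + ε := by linarith
  have hρ'v : ∀ u ∈ Ψ, ρ' u = f u * (ρ b' + ε) + τ u * (ρ c' + ε * s) := by
    intro u hu
    rw [hval, hδv, hρv u hu]
    ring
  refine ⟨ρ', R + g / 2, τ, ⟨?_, ?_⟩, by linarith, ?_, ?_, hball, ?_, ?_, ?_, t1, ?_⟩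
  · intro r
    refine (hρ.fin r).subset ?_
    rintro u ⟨hu, hr⟩
    refine ⟨hu, ?_⟩
    rw [habs u hu] at hr
    have := mul_nonneg hε0.le (abs_nonneg (δ u))
    linarith
  · refine (hfin.insert x).subset ?_
    rintro u ⟨hu, hp, hr⟩
    by_cases hp1 : u ∈ C01 x b' c'
    · obtain ⟨q1, q2, q3⟩ := hδ2 u hu hp1
      rw [hval] at hr
      have q4 := mul_nonneg hε0.le q2
      have q5 : ε * δ u = 0 := by linarith
      exact Or.inl (q3 ((mul_eq_zero.1 q5).resolve_left hε0.ne'))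
    · exact Or.inr ⟨hu, hp, hp1⟩
  · rw [hval, hx0, hδv, f1, t1, mul_zero, add_zero, mul_zero, add_zero]
  · intro u hu h0
    rcases h1.pos u hu with hp | hp
    · obtain ⟨q1, q2, q3⟩ := hδ2 u hu hp
      rw [hval] at h0
      have q4 := mul_nonneg hε0.le q2
      have q5 : ε * δ u = 0 := by linarith
      exact Or.inl (q3 ((mul_eq_zero.1 q5).resolve_left hε0.ne'))
    · obtain ⟨q1, q2, q3⟩ := hδ2 (-u) (h.neg u hu) hp
      rw [map_neg] at q1 q2 q3
      rw [hval] at h0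
      have q4 := mul_nonneg hε0.le q2
      have q5 : ε * (-δ u) = 0 := by linarith
      have q6 := q3 ((mul_eq_zero.1 q5).resolve_left hε0.ne')
      exact Or.inr (by rw [← q6, neg_neg])
  · intro u hu
    rw [habs u hu]
    have := mul_nonneg hε0.le (abs_nonneg (δ u))
    linarith
  · intro u hu hpos
    rcases h1.pos u hu with hp | hp
    · obtain ⟨q1, q2, -⟩ := hδ2 u hu hp
      rw [hval]
      have q4 := mul_nonneg hε0.le q2
      linarith
    · obtain ⟨q1, -, -⟩ := hδ2 (-u) (h.neg u hu) hp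
      rw [map_neg] at q1
      linarith
  · intro u hu v hv hR huv
    have hK1 : |ρ u| ≤ R := (hball u hu).1 hR
    have hK2 : |ρ v| ≤ R := (hball v hv).1 (by rw [← huv]; exact hR)
    have hτ : τ u = τ v := by
      by_contra hne
      apply hsF
      refine ⟨(u, v), ⟨⟨hu, hK1⟩, ⟨hv, hK2⟩⟩, ?_⟩
      have h2 : ε * (τ u - τ v) ≠ 0 := mul_ne_zero hε0.ne' (sub_ne_zero.2 hne)
      show -((ρ u - ρ v) + ε * (f u - f v)) / (ε * (τ u - τ v)) = s
      rw [div_eq_iff h2]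
      rw [hval, hval, hδv, hδv] at huv
      linarith
    have hf : f u = f v := by
      rw [hρ'v u hu, hρ'v v hv, hτ] at huv
      have h2 : (f u - f v) * (ρ b' + ε) = 0 := by linarith
      have h3 := (mul_eq_zero.1 h2).resolve_right hP.ne'
      linarith
    obtain ⟨α, hα⟩ := hco u hu
    obtain ⟨β, hβ⟩ := hco v hv
    refine ⟨β - α, ?_⟩
    rw [hf, hτ] at hα
    rw [hα]
    nth_rw 1 [hβ]
    module
  · intro u hu v hv h0 h2
    obtain ⟨α, hα⟩ := hco u hu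
    obtain ⟨β, hβ⟩ := hco v hv
    set l : ℝ := ρ' v / ρ' u with hl
    have hlv : l * ρ' u = ρ' v := by
      rw [hl]
      field_simp
    have hτ : τ v = l * τ u := by
      have h3 : (τ v - l * τ u) * ρ' u = 0 := by
        have h4 : l * τ u * ρ' u = τ u * ρ' v := by rw [← hlv]; ring
        linarith
      have h5 := (mul_eq_zero.1 h3).resolve_right h0
      linarith
    have hf : f v = l * f u := by
      rw [hρ'v u hu, hρ'v v hv, hτ] at hlv
      have h3 : (f v - l * f u) * (ρ b' + ε) = 0 := by linarith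
      have h5 := (mul_eq_zero.1 h3).resolve_right hP.ne'
      linarith
    refine ⟨l, β - l * α, ?_⟩
    rw [hf, hτ] at hβ
    rw [hβ]
    nth_rw 3 [hα]
    module

end DY
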